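import Mathlib

set_option autoImplicit false
set_option linter.unusedSectionVars false
set_option linter.unusedVariables false

namespace Pool.Agent.Y76

open Matrix

section general

variable {R : Type*} [CommRing R] {n : Type*} [Fintype n] [DecidableEq n]

/-- The twisted map `X ↦ A X + X Aᵀ + X + Xᵀ`. -/
def tw (A : Matrix n n R) : Matrix n n R →ₗ[R] Matrix n n R where
  toFun X := A * X + X * Aᵀ + (X + Xᵀ)
  map_add' X Y := by
    simp only [Matrix.mul_add, Matrix.add_mul, Matrix.transpose_add]; abel
  map_smul' r X := by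
    simp only [Matrix.mul_smul, Matrix.smul_mul, Matrix.transpose_smul, smul_add, RingHom.id_apply]

theorem tw_apply (A X : Matrix n n R) : tw A X = A * X + X * Aᵀ + (X + Xᵀ) := rfl

/-- Matrices all of whose entries lie in an ideal. -/
def entriesIn (J : Ideal R) : Submodule R (Matrix n n R) where
  carrier := {X | ∀ i j, X i j ∈ J}
  add_mem' := fun hX hY i j => J.add_mem (hX i j) (hY i j)
  zero_mem' := fun i j => J.zero_mem
  smul_mem' := fun r X hX i j => J.mul_mem_left r (hX i j)

theorem mem_entriesIn {J : Ideal R} {X : Matrix n n R} : X ∈ entriesIn J ↔ ∀ i j, X i j ∈ J := Iff.rfl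

theorem mul_mem_entriesIn {J : Ideal R} {X : Matrix n n R} (B : Matrix n n R) (hX : X ∈ entriesIn J) :
    B * X ∈ entriesIn J := by
  intro i j
  rw [Matrix.mul_apply]
  exact J.sum_mem fun l _ => J.mul_mem_left _ (hX l j)

theorem transpose_mem_entriesIn {J : Ideal R} {X : Matrix n n R} (hX : X ∈ entriesIn J) :
    Xᵀ ∈ entriesIn J := fun i j => hX j i

/-- entrywise application of an additive map -/
theorem map_mul_leibniz (δ : R →+ R) (hδ : ∀ a b, δ (a * b) = δ a * b + a * δ b) (A B : Matrix n n R) :
    (A * B).map δ = A.map δ * B + A * B.map δ := by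
  ext i j
  simp only [Matrix.map_apply, Matrix.mul_apply, Matrix.add_apply, map_sum, hδ, Finset.sum_add_distrib]

theorem tw_leibniz (h2 : ∀ a : R, a + a = 0) (δ : R →+ R) (hδ : ∀ a b, δ (a * b) = δ a * b + a * δ b)
    (A X : Matrix n n R) (hA : A * A = 0) :
    (tw A X).map δ = tw A (X.map δ + A.map δ * Xᵀ) + A.map δ * (tw A X)ᵀ := by
  have h2' : ∀ Y : Matrix n n R, Y + Y = 0 := fun Y => by ext i j; exact h2 _
  have hcomm : A * A.map δ = A.map δ * A := by
    have h := map_mul_leibniz δ hδ A A
    rw [hA] at h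
    have h0 : (0 : Matrix n n R).map δ = 0 := by ext i j; simp
    rw [h0] at h
    have h3 := h2' (A * A.map δ)
    calc A * A.map δ = A * A.map δ + (A.map δ * A + A * A.map δ) := by rw [← h, add_zero]
      _ = (A * A.map δ + A * A.map δ) + A.map δ * A := by abel
      _ = A.map δ * A := by rw [h3, zero_add]
  have hT : ∀ Y : Matrix n n R, (Y.map δ)ᵀ = Yᵀ.map δ := fun Y => rfl
  have hadd : ∀ Y Z : Matrix n n R, (Y + Z).map δ = Y.map δ + Z.map δ := fun Y Z => by
    ext i j; simp
  have e1 : (tw A X).map δ = A.map δ * X + A * X.map δ + (X.map δ * Aᵀ + X * (A.map δ)ᵀ)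
      + (X.map δ + (X.map δ)ᵀ) := by
    rw [tw_apply, hadd, hadd, hadd, map_mul_leibniz δ hδ, map_mul_leibniz δ hδ]
    rfl
  have e2 : (tw A X)ᵀ = Xᵀ * Aᵀ + A * Xᵀ + (Xᵀ + X) := by
    rw [tw_apply]
    simp only [Matrix.transpose_add, Matrix.transpose_mul, Matrix.transpose_transpose]
  have e3 : tw A (X.map δ + A.map δ * Xᵀ) = (A * X.map δ + X.map δ * Aᵀ + (X.map δ + (X.map δ)ᵀ)) +
      (A.map δ * A * Xᵀ + A.map δ * Xᵀ * Aᵀ + (A.map δ * Xᵀ + X * (A.map δ)ᵀ)) := by
    rw [map_add, tw_apply, tw_apply]
    congr 1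
    rw [← Matrix.mul_assoc, hcomm, Matrix.transpose_mul, Matrix.transpose_transpose]
  rw [e1, e2, e3]
  simp only [Matrix.mul_add, ← Matrix.mul_assoc]
  have h4 := h2' (A.map δ * A * Xᵀ)
  have h5 := h2' (A.map δ * Xᵀ * Aᵀ)
  have h6 := h2' (A.map δ * Xᵀ)
  calc A.map δ * X + A * X.map δ + (X.map δ * Aᵀ + X * (A.map δ)ᵀ) + (X.map δ + (X.map δ)ᵀ)
      = (A.map δ * X + A * X.map δ + (X.map δ * Aᵀ + X * (A.map δ)ᵀ) + (X.map δ + (X.map δ)ᵀ))
        + 0 + 0 + 0 := by simp only [add_zero]
    _ = (A.map δ * X + A * X.map δ + (X.map δ * Aᵀ + X * (A.map δ)ᵀ) + (X.map δ + (X.map δ)ᵀ))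
        + (A.map δ * A * Xᵀ + A.map δ * A * Xᵀ) + (A.map δ * Xᵀ * Aᵀ + A.map δ * Xᵀ * Aᵀ)
        + (A.map δ * Xᵀ + A.map δ * Xᵀ) := by rw [h4, h5, h6]
    _ = _ := by abel

/-- Key step: if all entries of `tw A X` lie in the ideal generated by the `x i`, `i ∈ s`, then
`tw A X` lies in that ideal times the range of `tw A`. -/
theorem tw_pure (h2 : ∀ a : R, a + a = 0) {ι : Type*} [DecidableEq ι] (x : ι → R)
    (hx : ∀ i, x i * x i = 0)
    (δ : ι → R →+ R) (hδ : ∀ i a b, δ i (a * b) = δ i a * b + a * δ i b)
    (hδ1 : ∀ i, δ i (x i) = 1) (hδ0 : ∀ i j, i ≠ j → δ i (x j) = 0)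
    (A : Matrix n n R) (hA : A * A = 0) (s : Finset ι) :
    ∀ X : Matrix n n R, tw A X ∈ entriesIn (Ideal.span (x '' (s : Set ι))) →
      tw A X ∈ Ideal.span (x '' (s : Set ι)) • LinearMap.range (tw A) := by
  induction s using Finset.induction_on with
  | empty =>
    intro X hX
    have : tw A X = 0 := by
      ext i j
      have := hX i j
      simpa using this
    rw [this]; exact Submodule.zero_mem _
  | insert i s his ih =>
    intro X hX
    set J := Ideal.span (x '' (s : Set ι)) with hJ
    have hJ' : Ideal.span (x '' ((insert i s : Finset ι) : Set ι)) = Ideal.span {x i} ⊔ J := by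
      rw [Finset.coe_insert, Set.image_insert_eq, Ideal.span_insert]
    rw [hJ'] at hX ⊢
    have hδJ : ∀ a ∈ J, δ i a ∈ J := by
      intro a ha
      induction ha using Submodule.span_induction with
      | mem a ha =>
        obtain ⟨j, hj, rfl⟩ := ha
        have hij : i ≠ j := fun h => his (by rw [h]; exact hj)
        rw [hδ0 i j hij]; exact J.zero_mem
      | zero => rw [map_zero]; exact J.zero_mem
      | add a b _ _ ha hb => rw [map_add]; exact J.add_mem ha hb
      | smul r a ha' ha =>
        rw [smul_eq_mul, hδ]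
        exact J.add_mem (J.mul_mem_left _ ha') (J.mul_mem_left _ ha)
    -- choose W
    have hch : ∀ p q, ∃ w : R, tw A X p q + x i * w ∈ J := by
      intro p q
      obtain ⟨u, hu, v, hv, huv⟩ := Submodule.mem_sup.1 (hX p q)
      obtain ⟨w, rfl⟩ := Ideal.mem_span_singleton'.1 hu
      refine ⟨w, ?_⟩
      rw [← huv]
      have : w * x i + v + x i * w = v := by
        have := h2 (x i * w)
        calc w * x i + v + x i * w = (x i * w + x i * w) + v := by ring
          _ = v := by rw [this, zero_add]
      rw [this]; exact hv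
    choose W hW using hch
    have hW' : tw A X + x i • (Matrix.of W) ∈ entriesIn J := by
      intro p q
      simpa using hW p q
    -- x i • tw A X ∈ J
    have h1 : x i • tw A X ∈ entriesIn J := by
      intro p q
      have := J.mul_mem_left (x i) (hW p q)
      rw [mul_add, ← mul_assoc, hx i, zero_mul, add_zero] at this
      simpa using this
    -- apply δ
    set Z := X.map (δ i) + A.map (δ i) * Xᵀ with hZ
    have h3 : (tw A X).map (δ i) + (Matrix.of W + x i • (Matrix.of W).map (δ i)) ∈ entriesIn J := by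
      intro p q
      have := hδJ _ (hW p q)
      rw [map_add, hδ, hδ1, one_mul] at this
      simpa using this
    rw [tw_leibniz h2 (δ i) (hδ i) A X hA, ← hZ] at h3
    -- multiply by x i
    have h4 : x i • tw A Z + x i • Matrix.of W ∈ entriesIn J := by
      have h5 := (entriesIn J).smul_mem (x i) h3
      have h6 : x i • (tw A Z + A.map (δ i) * (tw A X)ᵀ + (Matrix.of W + x i • (Matrix.of W).map (δ i)))
          = (x i • tw A Z + x i • Matrix.of W) + A.map (δ i) * (x i • tw A X)ᵀ := by
        have hxx : x i • x i • (Matrix.of W).map (δ i) = 0 := by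
          rw [smul_smul, hx i, zero_smul]
        simp only [smul_add, hxx, add_zero, Matrix.transpose_smul, Matrix.mul_smul]
        abel
      rw [h6] at h5
      have h7 := mul_mem_entriesIn (A.map (δ i)) (transpose_mem_entriesIn h1)
      exact (Submodule.add_mem_iff_left _ h7).1 h5
    have h8 : tw A (X + x i • Z) ∈ entriesIn J := by
      have h9 := (entriesIn J).add_mem hW' h4
      have h10 : tw A X + x i • Matrix.of W + (x i • tw A Z + x i • Matrix.of W) = tw A (X + x i • Z) := by
        rw [map_add (tw A) X (x i • Z), map_smul (tw A) (x i) Z]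
        have : x i • Matrix.of W + x i • Matrix.of W = 0 := by
          ext p q; exact h2 _
        calc tw A X + x i • Matrix.of W + (x i • tw A Z + x i • Matrix.of W)
            = tw A X + x i • tw A Z + (x i • Matrix.of W + x i • Matrix.of W) := by abel
          _ = _ := by rw [this, add_zero]
      rwa [h10] at h9
    have h11 := ih _ h8
    have h12 : tw A X = tw A (X + x i • Z) + x i • tw A Z := by
      rw [map_add (tw A) X (x i • Z), map_smul (tw A) (x i) Z, add_assoc]
      have : x i • tw A Z + x i • tw A Z = 0 := by ext p q; exact h2 _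
      rw [this, add_zero]
    rw [h12]
    refine Submodule.add_mem _ ?_ ?_
    · exact Submodule.smul_mono_left le_sup_right h11
    · exact Submodule.smul_mem_smul (Ideal.mem_sup_left (Ideal.mem_span_singleton_self _))
        (LinearMap.mem_range_self _ _)

end general

section gens

variable {R : Type*} [CommRing R] {n : ℕ}

/-- The pairs `i < j`. -/
abbrev Pairs (n : ℕ) : Type := {p : Fin n × Fin n // p.1 < p.2}

/-- `tw A` of the elementary matrices above the diagonal. -/
def gen (A : Matrix (Fin n) (Fin n) R) (p : Pairs n) : Matrix (Fin n) (Fin n) R :=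
  tw A (Matrix.single p.1.1 p.1.2 1)

theorem range_tw_le (h2 : ∀ a : R, a + a = 0) {ι : Type*} [DecidableEq ι] [Fintype ι] (x : ι → R)
    (hx : ∀ i, x i * x i = 0)
    (δ : ι → R →+ R) (hδ : ∀ i a b, δ i (a * b) = δ i a * b + a * δ i b)
    (hδ1 : ∀ i, δ i (x i) = 1) (hδ0 : ∀ i j, i ≠ j → δ i (x j) = 0)
    (A : Matrix (Fin n) (Fin n) R) (hA : A * A = 0) (hAm : ∀ i j, A i j ∈ Ideal.span (Set.range x)) :
    LinearMap.range (tw A) ≤ Submodule.span R (Set.range (gen A)) := by
  have hfg : (LinearMap.range (tw A)).FG := by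
    rw [LinearMap.range_eq_map]
    exact Submodule.FG.map _ Module.Finite.fg_top
  have hjac : Ideal.span (Set.range x) ≤ (⊥ : Ideal R).jacobson := by
    rw [Ideal.span_le]
    rintro _ ⟨i, rfl⟩
    have : x i ∈ (⊥ : Ideal R).radical := ⟨2, by rw [pow_two, hx i]; exact Ideal.zero_mem _⟩
    exact Ideal.radical_le_jacobson this
  refine Submodule.le_of_le_smul_of_le_jacobson_bot hfg hjac ?_
  rintro _ ⟨X, rfl⟩
  -- the correction
  set S : Matrix (Fin n) (Fin n) R :=
    ∑ p : Pairs n, (X p.1.1 p.1.2 + X p.1.2 p.1.1) • Matrix.single p.1.1 p.1.2 (1 : R) with hS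
  have hSij : ∀ i j, S i j = if i < j then X i j + X j i else 0 := by
    intro i j
    rw [hS, Matrix.sum_apply]
    simp only [Matrix.smul_apply, Matrix.single_apply, smul_eq_mul, mul_ite, mul_one, mul_zero]
    split_ifs with hij
    · rw [Finset.sum_eq_single ⟨(i, j), hij⟩]
      · simp
      · rintro ⟨⟨a, b⟩, hab⟩ _ hne
        rw [if_neg]
        rintro ⟨rfl, rfl⟩
        exact hne rfl
      · intro h; exact absurd (Finset.mem_univ _) h
    · refine Finset.sum_eq_zero ?_
      rintro ⟨⟨a, b⟩, hab⟩ _
      rw [if_neg]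
      rintro ⟨rfl, rfl⟩
      exact hij hab
  have hsymm : (X + S)ᵀ = X + S := by
    ext i j
    rw [Matrix.transpose_apply, Matrix.add_apply, Matrix.add_apply, hSij, hSij]
    rcases lt_trichotomy i j with h | h | h
    · rw [if_neg (not_lt.2 h.le), if_pos h, add_zero]
      have := h2 (X i j)
      calc X j i = (X i j + X i j) + X j i := by rw [this, zero_add]
        _ = _ := by ring
    · subst h; simp
    · rw [if_pos h, if_neg (not_lt.2 h.le), add_zero]
      have := h2 (X j i)
      calc X j i + (X j i + X i j) = (X j i + X j i) + X i j := by ring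
        _ = _ := by rw [this, zero_add]
  have hin : tw A (X + S) ∈ entriesIn (Ideal.span (x '' ((Finset.univ : Finset ι) : Set ι))) := by
    intro i j
    rw [tw_apply, hsymm]
    rw [Finset.coe_univ, Set.image_univ]
    have e : (A * (X + S) + (X + S) * Aᵀ + (X + S + (X + S))) i j
        = (A * (X + S)) i j + ((X + S) * Aᵀ) i j := by
      simp only [Matrix.add_apply]
      have := h2 (X i j + S i j)
      rw [this, add_zero]
    rw [e]
    refine Ideal.add_mem _ ?_ ?_
    · rw [Matrix.mul_apply]
      exact Ideal.sum_mem _ fun l _ => Ideal.mul_mem_right _ _ (hAm _ _)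
    · rw [Matrix.mul_apply]
      exact Ideal.sum_mem _ fun l _ => Ideal.mul_mem_left _ _ (by rw [Matrix.transpose_apply]; exact hAm _ _)
  have h3 := tw_pure h2 x hx δ hδ hδ1 hδ0 A hA Finset.univ (X + S) hin
  rw [Finset.coe_univ, Set.image_univ] at h3
  have h4 : tw A X = tw A S + tw A (X + S) := by
    rw [map_add]
    have : tw A S + tw A S = 0 := by ext i j; exact h2 _
    calc tw A X = (tw A S + tw A S) + tw A X := by rw [this, zero_add]
      _ = _ := by abel
  rw [h4]
  refine Submodule.add_mem_sup ?_ h3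
  rw [hS, map_sum]
  refine Submodule.sum_mem _ fun p _ => ?_
  rw [map_smul]
  exact Submodule.smul_mem _ _ (Submodule.subset_span ⟨p, rfl⟩)

theorem card_pairs (n : ℕ) : 2 * Fintype.card (Pairs n) + n = n * n := by
  have h1 : Fintype.card (Pairs n) = (Finset.univ.filter fun p : Fin n × Fin n => p.1 < p.2).card := by
    rw [Fintype.card_subtype]
  have h2 : (Finset.univ.filter fun p : Fin n × Fin n => p.1 < p.2).card
      = (Finset.univ.filter fun p : Fin n × Fin n => p.2 < p.1).card := by
    refine Finset.card_bij (fun p _ => (p.2, p.1)) ?_ ?_ ?_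
    · intro p hp; simpa using hp
    · rintro ⟨a, b⟩ _ ⟨c, d⟩ _ h; simp only [Prod.mk.injEq] at h; simp [h.1, h.2]
    · rintro ⟨a, b⟩ hp; exact ⟨(b, a), by simpa using hp, rfl⟩
  have h3 : (Finset.univ.filter fun p : Fin n × Fin n => p.1 = p.2).card = n := by
    have : (Finset.univ.filter fun p : Fin n × Fin n => p.1 = p.2) = Finset.univ.image (fun i : Fin n => (i, i)) := by
      ext ⟨a, b⟩
      simp only [Finset.mem_filter, Finset.mem_univ, true_and, Finset.mem_image, Prod.mk.injEq]
      constructor
      · rintro rfl; exact ⟨a, rfl, rfl⟩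
      · rintro ⟨c, rfl, rfl⟩; rfl
    rw [this, Finset.card_image_of_injective, Finset.card_univ, Fintype.card_fin]
    intro a b h; simpa using h
  have h4 : (Finset.univ : Finset (Fin n × Fin n)).card = n * n := by
    rw [Finset.card_univ, Fintype.card_prod, Fintype.card_fin]
  have h5 := Finset.card_filter_add_card_filter_not (s := (Finset.univ : Finset (Fin n × Fin n)))
    (fun p => p.1 < p.2)
  have h6 := Finset.card_filter_add_card_filter_not
    (s := (Finset.univ.filter fun p : Fin n × Fin n => ¬ p.1 < p.2)) (fun p => p.1 = p.2)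
  have h7 : ((Finset.univ.filter fun p : Fin n × Fin n => ¬ p.1 < p.2).filter fun p => p.1 = p.2)
      = (Finset.univ.filter fun p : Fin n × Fin n => p.1 = p.2) := by
    ext ⟨a, b⟩
    simp only [Finset.mem_filter, Finset.mem_univ, true_and, and_iff_right_iff_imp]
    rintro rfl; exact lt_irrefl _
  have h8 : ((Finset.univ.filter fun p : Fin n × Fin n => ¬ p.1 < p.2).filter fun p => ¬ p.1 = p.2)
      = (Finset.univ.filter fun p : Fin n × Fin n => p.2 < p.1) := by
    ext ⟨a, b⟩
    simp only [Finset.mem_filter, Finset.mem_univ, true_and, not_lt]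
    constructor
    · rintro ⟨h, h'⟩; exact lt_of_le_of_ne h (fun e => h' e.symm)
    · intro h; exact ⟨h.le, fun e => h.ne e.symm⟩
  rw [h7, h8] at h6
  omega

end gens

section graded

/-- Rank comparison for a graded perturbation. -/
theorem rank_graded {k V : Type*} [Field k] [AddCommGroup V] [Module k V] [FiniteDimensional k V]
    (D N : V →ₗ[k] V) (π : ℕ → V →ₗ[k] V) (P : ℕ)
    (hsum : ∀ v, ∑ p ∈ Finset.range P, π p v = v)
    (hD : ∀ p v, D (π (p + 1) v) = π p (D v))
    (hN : ∀ p v, π p (N v) = N (π p v))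
    (hpp : ∀ p v, π p (π p v) = π p v)
    (hpq : ∀ p q v, p ≠ q → π p (π q v) = 0) :
    Module.finrank k (LinearMap.range D) ≤ Module.finrank k (LinearMap.range (D + N)) := by
  obtain ⟨g', hg'⟩ := LinearMap.exists_rightInverse_of_surjective D.rangeRestrict D.range_rangeRestrict
  obtain ⟨g, hg⟩ := LinearMap.exists_extend g'
  have hDg : ∀ v, D (g (D v)) = D v := by
    intro v
    have h1 : g (D v) = g' ⟨D v, LinearMap.mem_range_self D v⟩ := by
      have := LinearMap.congr_fun hg ⟨D v, LinearMap.mem_range_self D v⟩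
      simpa using this
    have h2 := LinearMap.congr_fun hg' ⟨D v, LinearMap.mem_range_self D v⟩
    rw [h1]
    have h3 := congrArg Subtype.val h2
    simpa using h3
  set s : V →ₗ[k] V := ∑ p ∈ Finset.range P, (π (p + 1)).comp (g.comp (π p)) with hs
  have hsv : ∀ v, s v = ∑ p ∈ Finset.range P, π (p + 1) (g (π p v)) := by
    intro v; rw [hs, LinearMap.sum_apply]; rfl
  have hDs : ∀ v, D (s (D v)) = D v := by
    intro v
    rw [hsv, map_sum]
    have : ∀ p ∈ Finset.range P, D (π (p + 1) (g (π p (D v)))) = π p (D v) := by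
      intro p _
      rw [hD, ← hD p v, hDg, hD, hpp]
    rw [Finset.sum_congr rfl this, hsum]
  have hs0 : ∀ v, π 0 (s v) = 0 := by
    intro v
    rw [hsv, map_sum]
    exact Finset.sum_eq_zero fun p _ => hpq _ _ _ (by omega)
  have hs1 : ∀ q v, π q v = 0 → π (q + 1) (s v) = 0 := by
    intro q v hv
    rw [hsv, map_sum]
    refine Finset.sum_eq_zero fun p _ => ?_
    by_cases hqp : q = p
    · subst hqp; rw [hv, map_zero, map_zero, map_zero]
    · exact hpq _ _ _ (by omega)
  let h : LinearMap.range D →ₗ[k] LinearMap.range (D + N) :=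
    (((D + N).comp s).comp (LinearMap.range D).subtype).codRestrict (LinearMap.range (D + N))
      (fun v => LinearMap.mem_range_self _ _)
  have hinj : Function.Injective h := by
    rw [injective_iff_map_eq_zero]
    rintro ⟨_, v, rfl⟩ hu
    have h1 : D (s (D v)) + N (s (D v)) = 0 := by
      have := congrArg Subtype.val hu
      simpa [h] using this
    rw [hDs] at h1
    have h2 : ∀ q, π q (D v) = 0 := by
      intro q
      induction q with
      | zero =>
        have := congrArg (π 0) h1
        rw [map_add, hN, hs0, map_zero, map_zero, add_zero] at this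
        exact this
      | succ q ih =>
        have := congrArg (π (q + 1)) h1
        rw [map_add, hN, hs1 q _ ih, map_zero, map_zero, add_zero] at this
        exact this
    have h3 : D v = 0 := by
      rw [← hsum (D v)]
      exact Finset.sum_eq_zero fun p _ => h2 p
    exact Subtype.ext h3
  exact LinearMap.finrank_le_finrank_of_injective hinj

end graded

section ringfacts

open MvPolynomial

variable {k : Type*} [Field k] {d : ℕ}

/-- The ideal generated by the squares of the variables. -/
noncomputable def sqIdeal (k : Type*) [Field k] (d : ℕ) : Ideal (MvPolynomial (Fin d) k) :=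
  Ideal.span (Set.range (fun i : Fin d => (MvPolynomial.X i : MvPolynomial (Fin d) k) ^ 2))

/-- exponent vector of a squarefree monomial -/
noncomputable def expo (s : Finset (Fin d)) : Fin d →₀ ℕ := Finsupp.indicator s (fun _ _ => 1)

theorem expo_apply (s : Finset (Fin d)) (i : Fin d) : expo s i = if i ∈ s then 1 else 0 := by
  unfold expo
  by_cases h : i ∈ s
  · rw [Finsupp.indicator_of_mem h, if_pos h]
  · rw [Finsupp.indicator_of_notMem h, if_neg h]

theorem expo_injective : Function.Injective (expo (d := d)) := by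
  intro s t h
  ext i
  have := DFunLike.congr_fun h i
  rw [expo_apply, expo_apply] at this
  by_cases hs : i ∈ s <;> by_cases ht : i ∈ t <;> simp_all

theorem coeff_eq_zero_of_mem (s : Finset (Fin d)) {p : MvPolynomial (Fin d) k} (hp : p ∈ sqIdeal k d) :
    coeff (expo s) p = 0 := by
  obtain ⟨c, rfl⟩ := (Ideal.mem_span_range_iff_exists_fun).1 hp
  rw [coeff_sum]
  refine Finset.sum_eq_zero fun i _ => ?_
  have : (X i : MvPolynomial (Fin d) k) ^ 2 = monomial (Finsupp.single i 2) 1 := by
    rw [X_pow_eq_monomial]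
  rw [this, coeff_mul_monomial', if_neg]
  intro hle
  have := hle i
  rw [Finsupp.single_eq_same, expo_apply] at this
  split_ifs at this <;> omega

/-- coefficient extraction of squarefree monomials -/
noncomputable def coeffMap (k : Type*) [Field k] (d : ℕ) :
    MvPolynomial (Fin d) k →ₗ[k] (Finset (Fin d) → k) :=
  LinearMap.pi fun s => lcoeff k (expo s)

theorem finite_quot : Module.Finite k (MvPolynomial (Fin d) k ⧸ sqIdeal k d) := by
  have hint : Algebra.IsIntegral k (MvPolynomial (Fin d) k ⧸ sqIdeal k d) := by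
    constructor
    intro a
    obtain ⟨p, rfl⟩ := Ideal.Quotient.mk_surjective a
    have h1 : p ∈ Algebra.adjoin k (Set.range (X : Fin d → MvPolynomial (Fin d) k)) := by
      rw [adjoin_range_X]; trivial
    have h2 : Algebra.adjoin k (Set.range (X : Fin d → MvPolynomial (Fin d) k)) ≤
        (integralClosure k (MvPolynomial (Fin d) k ⧸ sqIdeal k d)).comap
          (Ideal.Quotient.mkₐ k (sqIdeal k d)) := by
      rw [Algebra.adjoin_le_iff]
      rintro _ ⟨i, rfl⟩
      change IsIntegral k (Ideal.Quotient.mk (sqIdeal k d) (X i))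
      refine ⟨Polynomial.X ^ 2, Polynomial.monic_X_pow 2, ?_⟩
      rw [Polynomial.eval₂_pow, Polynomial.eval₂_X, ← map_pow]
      exact Ideal.Quotient.eq_zero_iff_mem.2 (Ideal.subset_span ⟨i, rfl⟩)
    exact h2 h1
  have : Algebra.FiniteType k (MvPolynomial (Fin d) k ⧸ sqIdeal k d) := inferInstance
  exact Algebra.IsIntegral.finite

theorem finrank_quot_ge : 2 ^ d ≤ Module.finrank k (MvPolynomial (Fin d) k ⧸ sqIdeal k d) := by
  have := finite_quot (k := k) (d := d)
  have hker : (sqIdeal k d).restrictScalars k ≤ LinearMap.ker (coeffMap k d) := by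
    intro p hp
    rw [LinearMap.mem_ker]
    ext s
    exact coeff_eq_zero_of_mem s hp
  let f : (MvPolynomial (Fin d) k ⧸ (sqIdeal k d).restrictScalars k) →ₗ[k] (Finset (Fin d) → k) :=
    Submodule.liftQ _ (coeffMap k d) hker
  let g : (MvPolynomial (Fin d) k ⧸ sqIdeal k d) →ₗ[k] (Finset (Fin d) → k) :=
    f.comp (Submodule.Quotient.restrictScalarsEquiv k (sqIdeal k d)).symm.toLinearMap
  have hsurj : Function.Surjective g := by
    intro c
    refine ⟨Submodule.Quotient.mk (∑ s, monomial (expo s) (c s)), ?_⟩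
    change coeffMap k d (∑ s, monomial (expo s) (c s)) = c
    ext t
    change coeff (expo t) (∑ s, monomial (expo s) (c s)) = c t
    rw [coeff_sum, Finset.sum_eq_single t]
    · rw [coeff_monomial, if_pos rfl]
    · intro s _ hs
      rw [coeff_monomial, if_neg fun h => hs (expo_injective h)]
    · intro h; exact absurd (Finset.mem_univ _) h
  have := LinearMap.finrank_le_finrank_of_surjective hsurj
  rw [Module.finrank_fintype_fun_eq_card, Fintype.card_finset, Fintype.card_fin] at this
  exact this

theorem mem_span_of_nilpotent {a : MvPolynomial (Fin d) k ⧸ sqIdeal k d} (ha : IsNilpotent a) :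
    a ∈ Ideal.span (Set.range fun i : Fin d => Ideal.Quotient.mk (sqIdeal k d) (X i)) := by
  obtain ⟨p, rfl⟩ := Ideal.Quotient.mk_surjective a
  obtain ⟨N, hN⟩ := ha
  rw [← map_pow, Ideal.Quotient.eq_zero_iff_mem] at hN
  have h0 : constantCoeff (p ^ N) = 0 := by
    have h1 := coeff_eq_zero_of_mem (∅ : Finset (Fin d)) hN
    have h2 : expo (∅ : Finset (Fin d)) = 0 := by
      ext i; rw [expo_apply]; simp
    rw [h2] at h1
    exact h1
  rw [map_pow] at h0
  have h3 : constantCoeff p = 0 := by
    by_contra h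
    exact (pow_ne_zero N h) h0
  have h4 : p ∈ Ideal.span ((X : Fin d → MvPolynomial (Fin d) k) '' Set.univ) := by
    rw [mem_ideal_span_X_image]
    intro m hm
    by_contra hcon
    have hm0 : m = 0 := by
      ext i
      by_contra hi
      exact hcon ⟨i, trivial, hi⟩
    rw [hm0, mem_support_iff] at hm
    exact hm h3
  have h5 := Ideal.mem_map_of_mem (Ideal.Quotient.mk (sqIdeal k d)) h4
  rw [Ideal.map_span, Set.image_univ, ← Set.range_comp] at h5
  exact h5

/-- the derivation `∂/∂x_i` on the quotient, in characteristic two -/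
theorem exists_der [CharP k 2] (i : Fin d) :
    ∃ δ : (MvPolynomial (Fin d) k ⧸ sqIdeal k d) →+ (MvPolynomial (Fin d) k ⧸ sqIdeal k d),
      (∀ a b, δ (a * b) = δ a * b + a * δ b) ∧
      (∀ j, δ (Ideal.Quotient.mk (sqIdeal k d) (X j)) = if i = j then 1 else 0) := by
  have hI : ∀ p ∈ sqIdeal k d, Ideal.Quotient.mk (sqIdeal k d) (pderiv i p) = 0 := by
    intro p hp
    obtain ⟨c, rfl⟩ := (Ideal.mem_span_range_iff_exists_fun).1 hp
    rw [map_sum, map_sum]
    refine Finset.sum_eq_zero fun j _ => ?_
    rw [Derivation.leibniz, Derivation.leibniz_pow]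
    have h2 : (2 : ℕ) • ((X j : MvPolynomial (Fin d) k) ^ (2 - 1) • (pderiv i) (X j : MvPolynomial (Fin d) k)) = 0 := by
      rw [← Nat.cast_smul_eq_nsmul k, CharP.cast_eq_zero k 2, zero_smul]
    rw [h2, smul_zero, zero_add, smul_eq_mul, map_mul]
    have : Ideal.Quotient.mk (sqIdeal k d) ((X j : MvPolynomial (Fin d) k) ^ 2) = 0 :=
      Ideal.Quotient.eq_zero_iff_mem.2 (Ideal.subset_span ⟨j, rfl⟩)
    rw [this, zero_mul]
  let f : MvPolynomial (Fin d) k →+ (MvPolynomial (Fin d) k ⧸ sqIdeal k d) :=
    (Ideal.Quotient.mk (sqIdeal k d)).toAddMonoidHom.comp (pderiv i).toLinearMap.toAddMonoidHom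
  let δ : (MvPolynomial (Fin d) k ⧸ sqIdeal k d) →+ (MvPolynomial (Fin d) k ⧸ sqIdeal k d) :=
    QuotientAddGroup.lift (sqIdeal k d).toAddSubgroup f (fun p hp => hI p hp)
  have hδ : ∀ p, δ (Ideal.Quotient.mk (sqIdeal k d) p) = Ideal.Quotient.mk (sqIdeal k d) (pderiv i p) :=
    fun p => rfl
  refine ⟨δ, ?_, ?_⟩
  · intro a b
    obtain ⟨p, rfl⟩ := Ideal.Quotient.mk_surjective a
    obtain ⟨q, rfl⟩ := Ideal.Quotient.mk_surjective b
    rw [← map_mul, hδ, hδ, hδ, Derivation.leibniz, map_add, smul_eq_mul, smul_eq_mul, map_mul, map_mul]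
    ring
  · intro j
    rw [hδ, pderiv_X]
    by_cases h : i = j
    · subst h; rw [Pi.single_eq_same, if_pos rfl, map_one]
    · rw [if_neg h, Pi.single_eq_of_ne (by exact fun e => h e.symm), map_zero]

end ringfacts

section main

open MvPolynomial

variable {k : Type*} [Field k] [CharP k 2] {d n : ℕ}

/-- Bound for the rank of the twisted map. -/
theorem finrank_tw_le (A : Matrix (Fin n) (Fin n) (MvPolynomial (Fin d) k ⧸ sqIdeal k d))
    (hA : A * A = 0) (hnil : ∀ i j, IsNilpotent (A i j)) :
    Module.finrank k (LinearMap.range ((tw A).restrictScalars k)) ≤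
      Fintype.card (Pairs n) * Module.finrank k (MvPolynomial (Fin d) k ⧸ sqIdeal k d) := by
  have hfin := finite_quot (k := k) (d := d)
  have h2k : (1 : k) + 1 = 0 := by
    have := CharP.cast_eq_zero k 2
    rwa [Nat.cast_ofNat, ← one_add_one_eq_two] at this
  have h2 : ∀ a : MvPolynomial (Fin d) k ⧸ sqIdeal k d, a + a = 0 := by
    intro a
    have : a + a = ((1 : k) + 1) • a := by rw [add_smul, one_smul]
    rw [this, h2k, zero_smul]
  choose δ hδ hδX using fun i : Fin d => exists_der (k := k) (d := d) i
  have hle := range_tw_le h2 (fun i : Fin d => Ideal.Quotient.mk (sqIdeal k d) (X i))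
    (fun i => by
      rw [← pow_two, ← map_pow]
      exact Ideal.Quotient.eq_zero_iff_mem.2 (Ideal.subset_span ⟨i, rfl⟩))
    δ (fun i a b => hδ i a b) (fun i => by rw [hδX, if_pos rfl])
    (fun i j hij => by rw [hδX, if_neg hij]) A hA (fun i j => mem_span_of_nilpotent (hnil i j))
  set Φ := Fintype.linearCombination (MvPolynomial (Fin d) k ⧸ sqIdeal k d) (gen A) with hΦ
  have hr : LinearMap.range Φ = Submodule.span (MvPolynomial (Fin d) k ⧸ sqIdeal k d) (Set.range (gen A)) :=
    Fintype.range_linearCombination _ _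
  have hle2 : LinearMap.range ((tw A).restrictScalars k) ≤ LinearMap.range (Φ.restrictScalars k) := by
    rintro _ ⟨X, rfl⟩
    have := hle (LinearMap.mem_range_self (tw A) X)
    rw [← hr] at this
    obtain ⟨c, hc⟩ := this
    exact ⟨c, hc⟩
  calc Module.finrank k (LinearMap.range ((tw A).restrictScalars k))
      ≤ Module.finrank k (LinearMap.range (Φ.restrictScalars k)) := Submodule.finrank_mono hle2
    _ ≤ Module.finrank k (Pairs n → MvPolynomial (Fin d) k ⧸ sqIdeal k d) :=
        LinearMap.finrank_range_le _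
    _ = _ := by
        rw [Module.finrank_pi_fintype, Finset.sum_const, Finset.card_univ, smul_eq_mul]

/-- The differential of `P ⊗ P` in matrix form. -/
def dif {R : Type*} [CommRing R] (A : Matrix (Fin n) (Fin n) R) :
    Matrix (Fin n) (Fin n) R →ₗ[R] Matrix (Fin n) (Fin n) R where
  toFun X := A * X + X * Aᵀ
  map_add' X Y := by
    simp only [Matrix.mul_add, Matrix.add_mul]; abel
  map_smul' r X := by
    simp only [Matrix.mul_smul, Matrix.smul_mul, smul_add, RingHom.id_apply]

theorem finrank_dif_le (A : Matrix (Fin n) (Fin n) (MvPolynomial (Fin d) k ⧸ sqIdeal k d))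
    (hA : A * A = 0) (deg : Fin n → ℕ) (hdeg : ∀ i j, A i j ≠ 0 → deg j = deg i + 1)
    (hnil : ∀ i j, IsNilpotent (A i j)) :
    Module.finrank k (LinearMap.range ((dif A).restrictScalars k)) ≤
      Fintype.card (Pairs n) * Module.finrank k (MvPolynomial (Fin d) k ⧸ sqIdeal k d) := by
  have hfin := finite_quot (k := k) (d := d)
  refine le_trans ?_ (finrank_tw_le A hA hnil)
  let N : Matrix (Fin n) (Fin n) (MvPolynomial (Fin d) k ⧸ sqIdeal k d) →ₗ[k]
      Matrix (Fin n) (Fin n) (MvPolynomial (Fin d) k ⧸ sqIdeal k d) :=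
    { toFun := fun X => X + Xᵀ
      map_add' := fun X Y => by rw [Matrix.transpose_add]; abel
      map_smul' := fun r X => by rw [Matrix.transpose_smul, smul_add, RingHom.id_apply] }
  have hN : (dif A).restrictScalars k + N = (tw A).restrictScalars k := by
    ext X : 1
    rfl
  rw [← hN]
  let π : ℕ → Matrix (Fin n) (Fin n) (MvPolynomial (Fin d) k ⧸ sqIdeal k d) →ₗ[k]
      Matrix (Fin n) (Fin n) (MvPolynomial (Fin d) k ⧸ sqIdeal k d) := fun p =>
    { toFun := fun X => Matrix.of fun i j => if deg i + deg j = p then X i j else 0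
      map_add' := fun X Y => by
        ext i j
        simp only [Matrix.of_apply, Matrix.add_apply]
        split_ifs <;> simp
      map_smul' := fun r X => by
        ext i j
        simp only [Matrix.of_apply, Matrix.smul_apply, RingHom.id_apply]
        split_ifs <;> simp }
  have hπ : ∀ p X i j, π p X i j = if deg i + deg j = p then X i j else 0 := fun p X i j => rfl
  refine rank_graded _ N π (2 * (Finset.univ.sup deg) + 1) ?_ ?_ ?_ ?_ ?_
  · intro X
    ext i j
    rw [Matrix.sum_apply]
    simp only [hπ]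
    rw [Finset.sum_ite_eq]
    rw [if_pos]
    rw [Finset.mem_range]
    have h1 : deg i ≤ Finset.univ.sup deg := Finset.le_sup (Finset.mem_univ i)
    have h2 : deg j ≤ Finset.univ.sup deg := Finset.le_sup (Finset.mem_univ j)
    omega
  · intro p X
    ext i j
    change (A * π (p + 1) X + π (p + 1) X * Aᵀ) i j = π p (A * X + X * Aᵀ) i j
    rw [hπ, Matrix.add_apply, Matrix.add_apply, Matrix.mul_apply, Matrix.mul_apply, Matrix.mul_apply,
      Matrix.mul_apply]
    have e1 : ∀ l, A i l * π (p + 1) X l j = if deg i + deg j = p then A i l * X l j else 0 := by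
      intro l
      rw [hπ]
      by_cases h : A i l = 0
      · rw [h, zero_mul, zero_mul, ite_self]
      · have := hdeg i l h
        by_cases h' : deg i + deg j = p
        · rw [if_pos h', if_pos (by omega)]
        · rw [if_neg h', if_neg (by omega), mul_zero]
    have e2 : ∀ l, π (p + 1) X i l * Aᵀ l j = if deg i + deg j = p then X i l * Aᵀ l j else 0 := by
      intro l
      rw [hπ, Matrix.transpose_apply]
      by_cases h : A j l = 0
      · rw [h, mul_zero, mul_zero, ite_self]
      · have := hdeg j l h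
        by_cases h' : deg i + deg j = p
        · rw [if_pos h', if_pos (by omega)]
        · rw [if_neg h', if_neg (by omega), zero_mul]
    rw [Finset.sum_congr rfl fun l _ => e1 l, Finset.sum_congr rfl fun l _ => e2 l]
    split_ifs with h
    · rfl
    · simp
  · intro p X
    ext i j
    change π p (X + Xᵀ) i j = (π p X + (π p X)ᵀ) i j
    rw [hπ, Matrix.add_apply, Matrix.add_apply, Matrix.transpose_apply, Matrix.transpose_apply, hπ, hπ,
      add_comm (deg j) (deg i)]
    split_ifs <;> simp
  · intro p X
    ext i j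
    rw [hπ, hπ]
    split_ifs <;> rfl
  · intro p q X hpq
    ext i j
    rw [hπ, hπ]
    split_ifs with h1 h2
    · exact absurd (h1.symm.trans h2) hpq
    · rfl
    · rfl

/-- the identification of functions on pairs with matrices -/
def pairEquiv (R : Type*) [CommRing R] (n : ℕ) :
    (Fin n × Fin n → R) ≃ₗ[R] Matrix (Fin n) (Fin n) R where
  toFun v := Matrix.of fun i j => v (i, j)
  invFun X := fun p => X p.1 p.2
  map_add' _ _ := rfl
  map_smul' _ _ := rfl
  left_inv _ := rfl
  right_inv _ := rfl

theorem pairEquiv_mulVec {R : Type*} [CommRing R] (A : Matrix (Fin n) (Fin n) R)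
    (v : Fin n × Fin n → R) :
    pairEquiv R n (Matrix.mulVecLin (Matrix.kronecker A (1 : Matrix (Fin n) (Fin n) R) +
      Matrix.kronecker (1 : Matrix (Fin n) (Fin n) R) A) v) = dif A (pairEquiv R n v) := by
  ext i j
  change (Matrix.mulVecLin (Matrix.kronecker A (1 : Matrix (Fin n) (Fin n) R) +
      Matrix.kronecker (1 : Matrix (Fin n) (Fin n) R) A) v) (i, j) =
    (A * pairEquiv R n v + pairEquiv R n v * Aᵀ) i j
  rw [Matrix.mulVecLin_apply, Matrix.add_mulVec, Pi.add_apply, Matrix.add_apply, Matrix.mul_apply,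
    Matrix.mul_apply]
  congr 1
  · simp only [Matrix.mulVec, dotProduct, Matrix.kronecker, Matrix.kroneckerMap_apply,
      Fintype.sum_prod_type, Matrix.one_apply]
    refine Finset.sum_congr rfl fun l _ => ?_
    rw [Finset.sum_eq_single j]
    · rw [if_pos rfl, mul_one]; rfl
    · intro b _ hb; rw [if_neg (fun h => hb h.symm), mul_zero, zero_mul]
    · intro h; exact absurd (Finset.mem_univ _) h
  · simp only [Matrix.mulVec, dotProduct, Matrix.kronecker, Matrix.kroneckerMap_apply,
      Fintype.sum_prod_type, Matrix.one_apply]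
    rw [Finset.sum_eq_single i]
    · refine Finset.sum_congr rfl fun l _ => ?_
      rw [if_pos rfl, one_mul, Matrix.transpose_apply, mul_comm]; rfl
    · intro b _ hb
      refine Finset.sum_eq_zero fun l _ => ?_
      rw [if_neg (fun h => hb h.symm), zero_mul, zero_mul]
    · intro h; exact absurd (Finset.mem_univ _) h

theorem main (A : Matrix (Fin n) (Fin n) (MvPolynomial (Fin d) k ⧸ sqIdeal k d))
    (hA : A * A = 0) (deg : Fin n → ℕ) (hdeg : ∀ i j, A i j ≠ 0 → deg j = deg i + 1)
    (hnil : ∀ i j, IsNilpotent (A i j)) :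
    2 ^ d * n +
      Module.finrank k
        (LinearMap.range
          ((Matrix.mulVecLin
              (Matrix.kronecker A (1 : Matrix (Fin n) (Fin n) (MvPolynomial (Fin d) k ⧸ sqIdeal k d)) +
                Matrix.kronecker (1 : Matrix (Fin n) (Fin n) (MvPolynomial (Fin d) k ⧸ sqIdeal k d)) A)).restrictScalars k))
    ≤ Module.finrank k
        (LinearMap.ker
          ((Matrix.mulVecLin
              (Matrix.kronecker A (1 : Matrix (Fin n) (Fin n) (MvPolynomial (Fin d) k ⧸ sqIdeal k d)) +
                Matrix.kronecker (1 : Matrix (Fin n) (Fin n) (MvPolynomial (Fin d) k ⧸ sqIdeal k d)) A)).restrictScalars k)) := by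
  have hfin := finite_quot (k := k) (d := d)
  set L := (Matrix.mulVecLin
              (Matrix.kronecker A (1 : Matrix (Fin n) (Fin n) (MvPolynomial (Fin d) k ⧸ sqIdeal k d)) +
                Matrix.kronecker (1 : Matrix (Fin n) (Fin n) (MvPolynomial (Fin d) k ⧸ sqIdeal k d)) A)).restrictScalars k with hL
  set e := (pairEquiv (MvPolynomial (Fin d) k ⧸ sqIdeal k d) n).restrictScalars k with he
  have hrange : Module.finrank k (LinearMap.range L) = Module.finrank k (LinearMap.range ((dif A).restrictScalars k)) := by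
    have h1 : LinearMap.range ((dif A).restrictScalars k) = (LinearMap.range L).map e.toLinearMap := by
      ext Y
      constructor
      · rintro ⟨X, rfl⟩
        refine ⟨L (e.symm X), ⟨_, rfl⟩, ?_⟩
        have := pairEquiv_mulVec A (e.symm X)
        change pairEquiv _ n (L (e.symm X)) = _
        refine this.trans ?_
        rfl
      · rintro ⟨_, ⟨v, rfl⟩, rfl⟩
        exact ⟨e v, (pairEquiv_mulVec A v).symm⟩
    rw [h1]
    exact (LinearEquiv.finrank_map_eq e (LinearMap.range L)).symm
  have hrk := finrank_dif_le A hA deg hdeg hnil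
  rw [← hrange] at hrk
  have hrn := LinearMap.finrank_range_add_finrank_ker L
  have hV : Module.finrank k (Fin n × Fin n → MvPolynomial (Fin d) k ⧸ sqIdeal k d) =
      n * n * Module.finrank k (MvPolynomial (Fin d) k ⧸ sqIdeal k d) := by
    rw [Module.finrank_pi_fintype, Finset.sum_const, Finset.card_univ, Fintype.card_prod,
      Fintype.card_fin, smul_eq_mul]
  rw [hV] at hrn
  have hc := card_pairs n
  have hge := finrank_quot_ge (k := k) (d := d)
  set ρ := Module.finrank k (MvPolynomial (Fin d) k ⧸ sqIdeal k d)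
  set r := Module.finrank k (LinearMap.range L)
  set c := Fintype.card (Pairs n)
  have h1 : 2 ^ d * n ≤ ρ * n := Nat.mul_le_mul_right n hge
  have h2 : n * n * ρ = 2 * (c * ρ) + ρ * n := by rw [← hc]; ring
  omega

end main

end Pool.Agent.Y76
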